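import Mathlib

namespace Pool.Agent.Results.MP_b9d480_lc.LipSmoothEmbedding

open Set

/-- scale of the n-th block -/
def q (n : ℕ) : ℕ := 16 ^ (n + 1)

open Classical in
/-- length of the n-th coding run -/
noncomputable def k (x : Set ℕ) (n : ℕ) : ℕ := if n ∈ x then 4 * n + 5 else 4 * n + 7

/-- start of the n-th block -/
noncomputable def S (x : Set ℕ) : ℕ → ℕ
  | 0 => 0
  | (n + 1) => S x n + (6 * q n + 4 + k x n)

/-- letters inside a block -/
def g (q l : ℕ) : Prop := (l ≤ 2 * q + 1 ∧ l % 2 = 1) ∨ (2 * q + 2 ≤ l ∧ l % 2 = 0) ∨ 6 * q + 4 ≤ l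

/-- the word of x -/
def W (x : Set ℕ) (i : ℕ) : Prop := ∃ n l, l < 6 * q n + 4 + k x n ∧ i = S x n + l ∧ g (q n) l

lemma q_pos (n : ℕ) : 0 < q n := by unfold q; positivity

lemma q_succ (n : ℕ) : q (n + 1) = 16 * q n := by unfold q; rw [pow_succ]; ring

lemma q_big (n : ℕ) : 16 * n + 16 ≤ q n := by
  induction n with
  | zero => simp [q]
  | succ n ih => rw [q_succ]; omega

lemma q_mono {m n : ℕ} (h : m ≤ n) : q m ≤ q n := by
  unfold q; exact Nat.pow_le_pow_right (by norm_num) (by omega)

lemma q_lt {m n : ℕ} (h : m < n) : 16 * q m ≤ q n := by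
  rw [← q_succ]; exact q_mono h

lemma k_or (x : Set ℕ) (n : ℕ) : (n ∈ x ∧ k x n = 4 * n + 5) ∨ (n ∉ x ∧ k x n = 4 * n + 7) := by
  unfold k; by_cases h : n ∈ x <;> simp [h]

lemma S_succ (x : Set ℕ) (n : ℕ) : S x (n + 1) = S x n + (6 * q n + 4 + k x n) := rfl

lemma S_le (x : Set ℕ) (n : ℕ) : S x n ≤ q n := by
  induction n with
  | zero => simp [S]
  | succ n ih =>
    rw [S_succ, q_succ]
    have := q_big n
    rcases k_or x n with ⟨_, h⟩ | ⟨_, h⟩ <;> rw [h] <;> omega

lemma S_lt {x : Set ℕ} {m n : ℕ} (h : m < n) : S x m + (6 * q m + 4 + k x m) ≤ S x n := by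
  induction n with
  | zero => omega
  | succ n ih =>
    rcases Nat.lt_succ_iff_lt_or_eq.1 h with h | h
    · have := ih h; rw [S_succ]; omega
    · subst h; rw [S_succ]

lemma le_S (x : Set ℕ) (n : ℕ) : n ≤ S x n := by
  induction n with
  | zero => omega
  | succ n ih => rw [S_succ]; omega

lemma S_mod (x : Set ℕ) (n : ℕ) : S x n % 2 = n % 2 := by
  induction n with
  | zero => simp [S]
  | succ n ih =>
    rw [S_succ]
    rcases k_or x n with ⟨_, h⟩ | ⟨_, h⟩ <;> rw [h] <;> omega

lemma uniq {x : Set ℕ} {m n l l' : ℕ} (hl : l < 6 * q m + 4 + k x m)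
    (hl' : l' < 6 * q n + 4 + k x n) (h : S x m + l = S x n + l') : m = n := by
  rcases lt_trichotomy m n with h1 | h1 | h1
  · have := S_lt (x := x) h1; omega
  · exact h1
  · have := S_lt (x := x) h1; omega

lemma W_iff {x : Set ℕ} {n l : ℕ} (hl : l < 6 * q n + 4 + k x n) :
    W x (S x n + l) ↔ g (q n) l := by
  constructor
  · rintro ⟨m, l', h1, h2, h3⟩
    have := uniq hl h1 h2
    subst this
    have : l = l' := by omega
    subst this; exact h3
  · intro h; exact ⟨n, l, hl, rfl, h⟩

lemma cover (x : Set ℕ) (i : ℕ) : ∃ n l, l < 6 * q n + 4 + k x n ∧ i = S x n + l := by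
  induction i with
  | zero => exact ⟨0, 0, by omega, by simp [S]⟩
  | succ i ih =>
    obtain ⟨n, l, h1, h2⟩ := ih
    by_cases h : l + 1 < 6 * q n + 4 + k x n
    · exact ⟨n, l + 1, h, by omega⟩
    · exact ⟨n + 1, 0, by omega, by rw [S_succ]; omega⟩

/-- one step of a walk -/
def Step (a b : ℕ → Prop) (r : ℕ → ℕ) (i : ℕ) : Prop :=
  (r (i + 1) = r i + 1 ∧ (a i ↔ b (r i))) ∨ (r i = r (i + 1) + 1 ∧ (a i ↔ b (r (i + 1))))

lemma straight {a b : ℕ → Prop} {r : ℕ → ℕ} (hr : ∀ i, Step a b r i) (s N : ℕ)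
    (halt : ∀ l, l + 1 < N → ¬ (a (s + l) ↔ a (s + l + 1))) :
    (r (s + 1) = r s + 1 → ∀ l, l ≤ N → r (s + l) = r s + l) ∧
    (r s = r (s + 1) + 1 → ∀ l, l ≤ N → r (s + l) + l = r s) := by
  constructor
  · intro h1 l
    induction l using Nat.strong_induction_on with
    | _ l ih =>
      intro hl
      rcases Nat.lt_or_ge l 2 with h2 | h2
      · interval_cases l
        · simp
        · exact h1
      · obtain ⟨l, rfl⟩ : ∃ m, l = m + 2 := ⟨l - 2, by omega⟩
        have e1 := ih l (by omega) (by omega)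
        have e2 := ih (l + 1) (by omega) (by omega)
        have hh := halt l (by omega)
        have s1 := hr (s + l)
        have s2 := hr (s + l + 1)
        rw [show s + (l + 1) = s + l + 1 by ring] at e2
        rw [show s + (l + 2) = s + l + 1 + 1 by ring]
        rcases s1 with ⟨p1, p2⟩ | ⟨p1, p2⟩
        · rcases s2 with ⟨p3, p4⟩ | ⟨p3, p4⟩
          · omega
          · exfalso
            have : r (s + l + 1 + 1) = r (s + l) := by omega
            rw [this] at p4
            tauto
        · omega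
  · intro h1 l
    induction l using Nat.strong_induction_on with
    | _ l ih =>
      intro hl
      rcases Nat.lt_or_ge l 2 with h2 | h2
      · interval_cases l
        · simp
        · exact h1.symm
      · obtain ⟨l, rfl⟩ : ∃ m, l = m + 2 := ⟨l - 2, by omega⟩
        have e1 := ih l (by omega) (by omega)
        have e2 := ih (l + 1) (by omega) (by omega)
        have hh := halt l (by omega)
        have s1 := hr (s + l)
        have s2 := hr (s + l + 1)
        rw [show s + (l + 1) = s + l + 1 by ring] at e2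
        rw [show s + (l + 2) = s + l + 1 + 1 by ring]
        rcases s1 with ⟨p1, p2⟩ | ⟨p1, p2⟩
        · omega
        · rcases s2 with ⟨p3, p4⟩ | ⟨p3, p4⟩
          · exfalso
            tauto
          · omega

lemma run {x : Set ℕ} {i m : ℕ} (hm : 3 ≤ m) (hmi : m ≤ i) (hi : ¬ W x i)
    (h : ∀ r, r < m → W x (i - r - 1)) : ∃ n, i = S x (n + 1) ∧ m ≤ k x n := by
  obtain ⟨n, l, hl, rfl⟩ := cover x i
  rw [W_iff hl] at hi
  have hq := q_pos n
  rcases Nat.eq_zero_or_pos l with h0 | h0
  · subst h0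
    rcases n with _ | n
    · simp [S] at hmi; omega
    · refine ⟨n, by simp, ?_⟩
      by_contra hc
      push Not at hc
      have h1 := h _ hc
      rw [S_succ, show S x n + (6 * q n + 4 + k x n) + 0 - k x n - 1 = S x n + (6 * q n + 3) by omega,
        W_iff (by omega)] at h1
      have hq := q_pos n
      unfold g at h1
      omega
  · exfalso
    have hl2 : 2 ≤ l := by
      by_contra hc
      apply hi; unfold g; omega
    by_cases h3 : l = 2 * q n + 3
    · have h1 := h 2 (by omega)
      rw [show S x n + l - 2 - 1 = S x n + (2 * q n) by omega, W_iff (by omega)] at h1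
      unfold g at h1
      omega
    · have h1 := h 1 (by omega)
      rw [show S x n + l - 1 - 1 = S x n + (l - 2) by omega, W_iff (by omega)] at h1
      unfold g at h1 hi
      omega

lemma alt {x : Set ℕ} (n l : ℕ) (hl : l + 1 < 2 * q n + 2) :
    ¬ (W x (S x n + l) ↔ W x (S x n + l + 1)) := by
  rw [show S x n + l + 1 = S x n + (l + 1) by ring, W_iff (by omega), W_iff (by omega)]
  unfold g
  omega

theorem neg {x y : Set ℕ} {r : ℕ → ℕ} (hr : ∀ i, Step (W x) (W y) r i) : (x \ y).Finite := by
  by_contra hinf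
  have hinf : (x \ y).Infinite := hinf
  obtain ⟨j, hj, hjr⟩ := hinf.exists_gt (r 0)
  have hkx : k x j = 4 * j + 5 := by rcases k_or x j with h | h; exacts [h.2, absurd hj.1 h.1]
  have hky : k y j = 4 * j + 7 := by rcases k_or y j with h | h; exacts [absurd h.1 hj.2, h.2]
  set e := S y (j + 1) with he
  have he' : e = S y j + (6 * q j + 4) + k y j := by rw [he, S_succ]; ring
  have hjS := le_S y j
  have hr0 : r 0 ≤ S y j + (6 * q j + 4) := by omega
  have hWe : ∀ l, l ≤ 2 * q (j + 1) + 2 → (W y (e + l) ↔ (l % 2 = 1 ∨ l = 2 * q (j + 1) + 2)) := by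
    intro l hl
    rw [he, W_iff (by omega)]
    unfold g
    have := q_pos (j + 1)
    omega
  -- the walk never passes the barrier
  have hbd : ∀ i, r i ≤ e := by
    by_contra hc
    push Not at hc
    classical
    have hmin : ∀ m, m < Nat.find hc → r m ≤ e := fun m hm => by
      have := Nat.find_min hc hm
      omega
    have hf := Nat.find_spec hc
    obtain ⟨i, hi⟩ : ∃ i, Nat.find hc = i + 1 := by
      rcases h : Nat.find hc with _ | i
      · rw [h] at hf; omega
      · exact ⟨i, rfl⟩
    rw [hi] at hf hmin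
    have hri : r i = e ∧ r (i + 1) = e + 1 ∧ (W x i ↔ W y e) := by
      have h1 := hmin i (by omega)
      rcases hr i with ⟨h2, h3⟩ | ⟨h2, h3⟩
      · have : r i = e := by omega
        rw [this] at h2 h3
        exact ⟨this, h2, h3⟩
      · omega
    obtain ⟨h1, h2, h3⟩ := hri
    have hWi : ¬ W x i := by
      rw [h3]
      have := hWe 0 (by omega)
      rw [add_zero] at this
      rw [this]; omega
    -- backwards run
    have hback : ∀ m, m ≤ k y j → m ≤ i ∧ e ≤ r (i - m) + m ∧ ∀ s, s < m → W x (i - s - 1) := by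
      intro m
      induction m with
      | zero => intro _; exact ⟨by omega, by simp [h1], by intro s hs; omega⟩
      | succ m ih =>
        intro hm
        obtain ⟨p1, p2, p3⟩ := ih (by omega)
        have hmi : m + 1 ≤ i := by
          by_contra hcc
          have : i - m = 0 := by omega
          rw [this] at p2
          omega
        have hs : i - m - 1 + 1 = i - m := by omega
        have hstep := hr (i - m - 1)
        have b1 := hmin (i - m - 1) (by omega)
        have b2 := hmin (i - m) (by omega)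
        rw [show i - (m + 1) = i - m - 1 by omega]
        unfold Step at hstep
        rw [hs] at hstep
        have hWd : ∀ d, d < e → e ≤ d + k y j → W y d := by
          intro d hd1 hd2
          have : d = S y j + (6 * q j + 4 + (d - (S y j + (6 * q j + 4)))) := by omega
          rw [this, W_iff (by omega)]
          unfold g
          omega
        have key : W x (i - m - 1) ∧ e ≤ r (i - m - 1) + (m + 1) := by
          rcases hstep with ⟨p4, p5⟩ | ⟨p4, p5⟩
          · exact ⟨p5.2 (hWd _ (by omega) (by omega)), by omega⟩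
          · exact ⟨p5.2 (hWd _ (by omega) (by omega)), by omega⟩
        refine ⟨hmi, key.2, ?_⟩
        intro s hs
        rcases Nat.lt_succ_iff_lt_or_eq.1 hs with hs | rfl
        · exact p3 s hs
        · exact key.1
    obtain ⟨p1, p2, p3⟩ := hback (k y j) le_rfl
    obtain ⟨n, hn1, hn2⟩ := run (by omega) p1 hWi p3
    have hnj : j < n := by
      rcases k_or x n with ⟨_, h⟩ | ⟨_, h⟩
      · omega
      · have : j ≤ n := by omega
        rcases Nat.lt_or_eq_of_le this with h' | h'
        · exact h'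
        · subst h'; omega
    have hst := (straight hr i (2 * q (n + 1) + 2) (by
      intro l hl
      rw [hn1]
      exact alt (n + 1) l hl)).1 (by omega)
    have hqq := q_lt (show j + 1 < n + 1 by omega)
    have hqp := q_pos (j + 1)
    have e1 := hst (2 * q (j + 1) + 2) (by omega)
    have e2 := hst (2 * q (j + 1) + 3) (by omega)
    have hx : ¬ W x (i + (2 * q (j + 1) + 2)) := by
      rw [hn1, W_iff (by omega)]
      unfold g
      omega
    have hy : W y (e + (2 * q (j + 1) + 2)) := by
      rw [hWe _ le_rfl]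
      right; rfl
    rcases hr (i + (2 * q (j + 1) + 2)) with ⟨p4, p5⟩ | ⟨p4, p5⟩
    · rw [e1, h1] at p5
      exact hx (p5.2 hy)
    · rw [show i + (2 * q (j + 1) + 2) + 1 = i + (2 * q (j + 1) + 3) by ring] at p4
      omega
  -- contradiction from a long alternating part
  have hqe := q_big e
  have hst := straight hr (S x e) (2 * q e + 2) (fun l hl => alt e l hl)
  rcases hr (S x e) with ⟨p1, _⟩ | ⟨p1, _⟩
  · have := hst.1 p1 (2 * q e + 2) le_rfl
    have := hbd (S x e + (2 * q e + 2))
    omega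
  · have := hst.2 p1 (2 * q e + 2) le_rfl
    have := hbd (S x e)
    omega

open Classical in
/-- reverse reading on an alternating line -/
noncomputable def er (x : Set ℕ) (T : ℕ) : ℕ → ℕ
  | 0 => 0
  | (r + 1) => if (er x T r % 2 = 1 ↔ W x (T - 1 - r)) then er x T r + 1 else er x T r - 1

open Classical in
/-- the greedy walk -/
noncomputable def rho (x y : Set ℕ) (v : ℕ) : ℕ → ℕ
  | 0 => v
  | (i + 1) => if (W y (rho x y v i) ↔ W x i) then rho x y v i + 1 else rho x y v i - 1

lemma er_succ_pos {x : Set ℕ} {T r : ℕ} (h : er x T r % 2 = 1 ↔ W x (T - 1 - r)) :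
    er x T (r + 1) = er x T r + 1 := by
  rw [er, if_pos h]

lemma er_succ_neg {x : Set ℕ} {T r : ℕ} (h : ¬ (er x T r % 2 = 1 ↔ W x (T - 1 - r))) :
    er x T (r + 1) = er x T r - 1 := by
  rw [er, if_neg h]

lemma rho_pos {x y : Set ℕ} {v i : ℕ} (h : W y (rho x y v i) ↔ W x i) :
    rho x y v (i + 1) = rho x y v i + 1 := by
  rw [rho, if_pos h]

lemma rho_neg {x y : Set ℕ} {v i : ℕ} (h : ¬ (W y (rho x y v i) ↔ W x i)) :
    rho x y v (i + 1) = rho x y v i - 1 := by
  rw [rho, if_neg h]

lemma sync {x y : Set ℕ} {v i u L : ℕ} (h0 : rho x y v i = u)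
    (h : ∀ l, l < L → (W y (u + l) ↔ W x (i + l))) :
    (∀ l, l ≤ L → rho x y v (i + l) = u + l) ∧
      (∀ l, l < L → Step (W x) (W y) (rho x y v) (i + l)) := by
  have h1 : ∀ l, l ≤ L → rho x y v (i + l) = u + l := by
    intro l
    induction l with
    | zero => intro _; simpa using h0
    | succ l ih =>
      intro hl
      have e := ih (by omega)
      have := h l (by omega)
      rw [← e] at this
      rw [show i + (l + 1) = i + l + 1 by ring, rho_pos this, e]; ring
  refine ⟨h1, fun l hl => ?_⟩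
  left
  rw [show i + l + 1 = i + (l + 1) by ring, h1 l hl.le, h1 (l + 1) hl]
  exact ⟨by ring, (h l hl).symm⟩

lemma seg {x y : Set ℕ} {v n o : ℕ} (ho : o ≤ 6 * q n + 4) (hn : n ∈ x → n ∈ y)
    (h0 : rho x y v (S x n + o) = S y n + o) :
    rho x y v (S x (n + 1)) = S y (n + 1) ∧
      ∀ l, o ≤ l → l < 6 * q n + 4 + k x n → Step (W x) (W y) (rho x y v) (S x n + l) := by
  have hk : k x n = k y n ∨ k x n = k y n + 2 := by
    rcases k_or x n with ⟨h1, h2⟩ | ⟨h1, h2⟩ <;> rcases k_or y n with ⟨h3, h4⟩ | ⟨h3, h4⟩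
    · left; omega
    · exact absurd (hn h1) h3
    · right; omega
    · left; omega
  have hk0 : 5 ≤ k y n := by rcases k_or y n with ⟨h3, h4⟩ | ⟨h3, h4⟩ <;> omega
  obtain ⟨s1, s2⟩ := sync (L := 6 * q n + 4 + k y n - o) h0 (by
    intro l hl
    rw [show S y n + o + l = S y n + (o + l) by ring, show S x n + o + l = S x n + (o + l) by ring,
      W_iff (by omega), W_iff (by omega)])
  have e1 := s1 (6 * q n + 4 + k y n - o) le_rfl
  rw [show S x n + o + (6 * q n + 4 + k y n - o) = S x n + (6 * q n + 4 + k y n) by omega,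
    show S y n + o + (6 * q n + 4 + k y n - o) = S y (n + 1) by rw [S_succ]; omega] at e1
  have st : ∀ l, o ≤ l → l < 6 * q n + 4 + k y n →
      Step (W x) (W y) (rho x y v) (S x n + l) := by
    intro l h1 h2
    have := s2 (l - o) (by omega)
    rwa [show S x n + o + (l - o) = S x n + l by omega] at this
  rcases hk with hk | hk
  · rw [← hk, ← S_succ] at e1
    refine ⟨e1, fun l h1 h2 => st l h1 (by omega)⟩
  · set c := 6 * q n + 4 + k y n with hc
    have hy0 : ¬ W y (S y (n + 1)) := by
      have := W_iff (x := y) (n := n + 1) (l := 0) (by omega)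
      rw [add_zero] at this
      rw [this]; unfold g; omega
    have hx0 : W x (S x n + c) := by rw [W_iff (by omega)]; unfold g; omega
    have hx1 : W x (S x n + (c + 1)) := by rw [W_iff (by omega)]; unfold g; omega
    have hyS : S y (n + 1) = S y n + c := by rw [S_succ]
    have hy1 : W y (S y (n + 1) - 1) := by
      rw [show S y (n + 1) - 1 = S y n + (c - 1) by omega, W_iff (by omega)]
      unfold g; omega
    have e2 : rho x y v (S x n + (c + 1)) = S y (n + 1) - 1 := by
      rw [show S x n + (c + 1) = S x n + c + 1 by ring, rho_neg (by rw [e1]; tauto), e1]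
    have e3 : rho x y v (S x n + (c + 2)) = S y (n + 1) := by
      rw [show S x n + (c + 2) = S x n + (c + 1) + 1 by ring, rho_pos (by rw [e2]; tauto), e2]
      omega
    refine ⟨?_, ?_⟩
    · rw [← e3]; congr 1; rw [S_succ]; omega
    · intro l h1 h2
      rcases Nat.lt_trichotomy l c with h3 | h3 | h3
      · exact st l h1 h3
      · subst h3
        right
        rw [show S x n + c + 1 = S x n + (c + 1) by ring, e1, e2]
        exact ⟨by omega, by tauto⟩
      · have : l = c + 1 := by omega
        subst this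
        left
        rw [show S x n + (c + 1) + 1 = S x n + (c + 2) by ring, e2, e3]
        exact ⟨by omega, by tauto⟩

theorem pos {x y : Set ℕ} (h : (x \ y).Finite) :
    ∃ r : ℕ → ℕ, (∀ i, Step (W x) (W y) r i) ∧ r 0 % 2 = 0 := by
  obtain ⟨N, hN⟩ : ∃ N, ∀ n, N ≤ n → n ∈ x → n ∈ y := by
    obtain ⟨N, hN⟩ := h.bddAbove
    refine ⟨N + 1, fun n hn hx => ?_⟩
    by_contra hy
    have := hN ⟨hx, hy⟩
    omega
  set T := S x N + (2 * q N + 1) with hT
  set J := S y N + (2 * q N + 3) with hJ
  have hSx := S_le x N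
  have hq := q_pos N
  have er1 : ∀ r, r ≤ 2 * q N + 1 → er x T r = r := by
    intro r
    induction r with
    | zero => intro _; rfl
    | succ r ih =>
      intro hr
      have e := ih (by omega)
      rw [er_succ_pos, e]
      rw [e, show T - 1 - r = S x N + (2 * q N - r) by omega, W_iff (by omega)]
      unfold g
      omega
  have er2 : ∀ r, 2 * q N + 1 ≤ r → 2 * q N + 1 + (2 * q N + 1) ≤ er x T r + r ∧ er x T r ≤ r := by
    intro r hr
    induction r, hr using Nat.le_induction with
    | base => rw [er1 _ le_rfl]; omega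
    | succ r hr ih =>
      by_cases hc : (er x T r % 2 = 1 ↔ W x (T - 1 - r))
      · rw [er_succ_pos hc]; omega
      · rw [er_succ_neg hc]; omega
  have erle : ∀ r, er x T r ≤ r := by
    intro r
    rcases Nat.lt_or_ge r (2 * q N + 1) with h1 | h1
    · rw [er1 r h1.le]
    · exact (er2 r h1).2
  have hlab : ∀ D, D ≤ 3 * q N + 1 → (W y (J + D) ↔ D % 2 = 1) := by
    intro D hD
    rw [show J + D = S y N + (2 * q N + 3 + D) by omega, W_iff (by omega)]
    unfold g
    omega
  set r := rho x y (J + er x T T) with hr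
  have hmain : ∀ i, i ≤ T → r i = J + er x T (T - i) ∧ (∀ m, m < i → Step (W x) (W y) r m) := by
    intro i
    induction i with
    | zero => intro _; exact ⟨by rw [hr]; simp [rho], by intro m hm; omega⟩
    | succ i ih =>
      intro hi
      obtain ⟨e, hst⟩ := ih (by omega)
      set s := T - (i + 1) with hs
      have hsi : T - i = s + 1 := by omega
      have hTi : T - 1 - s = i := by omega
      rw [hsi] at e
      have hle := erle (s + 1)
      by_cases hc : (er x T s % 2 = 1 ↔ W x (T - 1 - s))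
      · have e2 := er_succ_pos hc
        rw [hTi] at hc
        rw [e2] at e
        have l1 := hlab (er x T s + 1) (by omega)
        have l2 := hlab (er x T s) (by omega)
        have hneg : ¬ (W y (r i) ↔ W x i) := by
          rw [e, l1, ← hc]; omega
        have e3 : r (i + 1) = J + er x T s := by
          rw [hr, rho_neg hneg, ← hr, e]; omega
        refine ⟨e3, ?_⟩
        intro m hm
        rcases Nat.lt_succ_iff_lt_or_eq.1 hm with hm | rfl
        · exact hst m hm
        · right
          rw [e3, e]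
          exact ⟨by ring, by rw [l2, hc]⟩
      · have e2 := er_succ_neg hc
        have hge : 1 ≤ er x T s := by
          rcases Nat.lt_or_ge s (2 * q N + 1) with h1 | h1
          · have := er1 s h1.le
            have := er1 (s + 1) (by omega)
            omega
          · have := er2 s h1
            omega
        rw [hTi] at hc
        rw [e2] at e
        have l1 := hlab (er x T s - 1) (by omega)
        have hp : (W y (r i) ↔ W x i) := by
          rw [e, l1]
          by_cases hw : W x i
          · simp only [hw, iff_true] at hc ⊢; omega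
          · simp only [hw, iff_false] at hc ⊢; omega
        have e3 : r (i + 1) = J + er x T s := by
          rw [hr, rho_pos hp, ← hr, e]; omega
        refine ⟨e3, ?_⟩
        intro m hm
        rcases Nat.lt_succ_iff_lt_or_eq.1 hm with hm | rfl
        · exact hst m hm
        · left
          rw [e3]
          refine ⟨by rw [e]; omega, hp.symm⟩
  obtain ⟨hT0, hstT⟩ := hmain T le_rfl
  rw [Nat.sub_self] at hT0
  have hT0 : r T = J := by rw [hT0]; rfl
  have wxT : W x T := by rw [hT, W_iff (by omega)]; unfold g; omega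
  have wxT1 : W x (T + 1) := by
    rw [hT, show S x N + (2 * q N + 1) + 1 = S x N + (2 * q N + 2) by ring, W_iff (by omega)]
    unfold g; omega
  have wyJ : ¬ W y J := by have := hlab 0 (by omega); rw [add_zero] at this; rw [this]; omega
  have wyJ1 : W y (J - 1) := by
    rw [show J - 1 = S y N + (2 * q N + 2) by omega, W_iff (by omega)]; unfold g; omega
  have hT1 : r (T + 1) = J - 1 := by
    rw [hr, rho_neg (by rw [← hr, hT0]; tauto), ← hr, hT0]
  have hT2 : r (T + 2) = J := by
    rw [show T + 2 = T + 1 + 1 by ring, hr, rho_pos (by rw [← hr, hT1]; tauto), ← hr, hT1]; omega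
  have hstT0 : Step (W x) (W y) r T := by
    right; rw [hT0, hT1]; exact ⟨by omega, by tauto⟩
  have hstT1 : Step (W x) (W y) r (T + 1) := by
    left; rw [show T + 1 + 1 = T + 2 by ring, hT2, hT1]; exact ⟨by omega, by tauto⟩
  have hN0 : r (S x N + (2 * q N + 3)) = S y N + (2 * q N + 3) := by
    rw [show S x N + (2 * q N + 3) = T + 2 by omega, hT2]
  have hsN := seg (by omega) (hN N le_rfl) hN0
  have hsn : ∀ n, N < n → r (S x n) = S y n := by
    intro n hn
    induction n, hn using Nat.le_induction with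
    | base => exact hsN.1
    | succ n hn ih =>
      exact (seg (o := 0) (by omega) (hN n (by omega)) (by simpa using ih)).1
  have hall : ∀ i, Step (W x) (W y) r i := by
    intro i
    rcases Nat.lt_or_ge i T with h1 | h1
    · exact hstT i h1
    rcases Nat.lt_or_ge i (T + 2) with h2 | h2
    · rcases Nat.lt_or_ge i (T + 1) with h3 | h3
      · have : i = T := by omega
        rw [this]; exact hstT0
      · have : i = T + 1 := by omega
        rw [this]; exact hstT1
    · obtain ⟨n, l, hl, hi⟩ := cover x i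
      rcases Nat.lt_trichotomy n N with h3 | h3 | h3
      · have := S_lt (x := x) h3; omega
      · subst h3
        rw [hi]
        exact hsN.2 l (by omega) hl
      · rw [hi]
        exact (seg (o := 0) (by omega) (hN n (by omega)) (by simpa using hsn n h3)).2 l (by omega) hl
  refine ⟨r, hall, ?_⟩
  have hpar : ∀ i, (r i + i) % 2 = r 0 % 2 := by
    intro i
    induction i with
    | zero => simp
    | succ i ih =>
      rcases hall i with ⟨h1, _⟩ | ⟨h1, _⟩ <;> omega
  have h1 := hpar (S x (N + 1))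
  rw [hsn (N + 1) (by omega)] at h1
  have h2 := S_mod x (N + 1)
  have h3 := S_mod y (N + 1)
  omega

/-- the set coded by a word -/
def A (a : ℕ → Prop) : Set ℝ :=
  {t | (0 ≤ t ∧ 0 < Real.sin (t * Real.pi)) ∨ ∃ i : ℕ, t = i ∧ a i}

lemma mem_nat {a : ℕ → Prop} (i : ℕ) : (i : ℝ) ∈ A a ↔ a i := by
  constructor
  · rintro (⟨_, h⟩ | ⟨j, h1, h2⟩)
    · rw [Real.sin_nat_mul_pi] at h; exact absurd h (lt_irrefl _)
    · rw [Nat.cast_inj.1 h1]; exact h2
  · intro h; exact Or.inr ⟨i, rfl, h⟩

/-- open regions -/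
def Reg (i : ℕ) (t : ℝ) : Prop := t < i ∧ (i ≠ 0 → (i : ℝ) - 1 < t)

lemma mem_reg {a : ℕ → Prop} {i : ℕ} {t : ℝ} (h : Reg i t) : t ∈ A a ↔ i % 2 = 1 := by
  obtain ⟨h1, h2⟩ := h
  rcases i with _ | i
  · simp only [Nat.cast_zero] at h1
    constructor
    · rintro (⟨h, _⟩ | ⟨j, hj, _⟩)
      · exact absurd h (not_le.2 h1)
      · have : (0 : ℝ) ≤ j := Nat.cast_nonneg j
        rw [← hj] at this; exact absurd this (not_le.2 h1)
    · intro h; omega
  · have h2 := h2 (by omega)
    push_cast at h1 h2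
    have hi : (0 : ℝ) ≤ i := Nat.cast_nonneg i
    have hs : Real.sin (t * Real.pi) = (-1) ^ i * Real.sin ((t - i) * Real.pi) := by
      rw [← Real.sin_add_nat_mul_pi]; congr 1; ring
    have hpos : 0 < Real.sin ((t - i) * Real.pi) := by
      apply Real.sin_pos_of_pos_of_lt_pi
      · exact mul_pos (by linarith) Real.pi_pos
      · nlinarith [Real.pi_pos]
    constructor
    · rintro (⟨_, h⟩ | ⟨j, hj, _⟩)
      · by_contra hc
        have : i % 2 = 1 := by omega
        rw [hs, Odd.neg_one_pow (Nat.odd_iff.2 this)] at h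
        linarith
      · exfalso
        rw [hj] at h1 h2
        have a1 : i < j := by exact_mod_cast (show (i : ℝ) < j by linarith)
        have a2 : j < i + 1 := by exact_mod_cast h1
        omega
    · intro h
      left
      refine ⟨by linarith, ?_⟩
      rw [hs, Even.neg_one_pow (Nat.even_iff.2 (by omega)), one_mul]
      exact hpos

lemma A_D2 (a : ℕ → Prop) : ∃ U F : Set ℝ, IsOpen U ∧ IsClosed F ∧ A a = U ∩ F := by
  refine ⟨(((↑) : ℕ → ℝ) '' {i | ¬ a i})ᶜ, {t | 0 ≤ t ∧ 0 ≤ Real.sin (t * Real.pi)}, ?_, ?_, ?_⟩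
  · exact (Nat.isClosedEmbedding_coe_real.isClosedMap _ (isClosed_discrete _)).isOpen_compl
  · exact (isClosed_le continuous_const continuous_id).inter
      (isClosed_le continuous_const
        (Real.continuous_sin.comp (continuous_id.mul continuous_const)))
  · ext t
    simp only [mem_inter_iff, mem_compl_iff, mem_image]
    constructor
    · intro ht
      constructor
      · rintro ⟨i, hi, rfl⟩
        exact hi ((mem_nat i).1 ht)
      · rcases ht with ⟨h1, h2⟩ | ⟨i, rfl, _⟩
        · exact ⟨h1, h2.le⟩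
        · exact ⟨Nat.cast_nonneg i, by rw [Real.sin_nat_mul_pi]⟩
    · rintro ⟨h1, h2, h3⟩
      rcases h3.lt_or_eq with h3 | h3
      · exact Or.inl ⟨h2, h3⟩
      · obtain ⟨n, hn⟩ := Real.sin_eq_zero_iff.1 h3.symm
        have hn : (n : ℝ) = t := mul_right_cancel₀ Real.pi_ne_zero hn
        have : (0 : ℝ) ≤ n := by rw [hn]; exact h2
        have : 0 ≤ n := by exact_mod_cast this
        obtain ⟨m, rfl⟩ := Int.eq_ofNat_of_zero_le this
        right
        refine ⟨m, by rw [← hn]; simp, ?_⟩
        by_contra hc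
        exact h1 ⟨m, hc, by rw [← hn]; simp⟩

/-! ### from reductions to walks -/

lemma region_cases (u : ℝ) : (∃ j : ℕ, u = j) ∨ ∃ j : ℕ, Reg j u := by
  rcases lt_or_ge u 0 with h | h
  · right; exact ⟨0, by simpa using h, by simp⟩
  · by_cases hu : u = ⌊u⌋₊
    · exact Or.inl ⟨_, hu⟩
    · right
      refine ⟨⌊u⌋₊ + 1, ?_, ?_⟩
      · push_cast; exact Nat.lt_floor_add_one u
      · intro _; push_cast
        have := Nat.floor_le h
        have : (⌊u⌋₊ : ℝ) < u := lt_of_le_of_ne this (Ne.symm hu)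
        linarith

lemma exists_reg {f : ℝ → ℝ} (hf : Continuous f) {a b : ℕ → Prop} (h : A a = f ⁻¹' (A b)) (i : ℕ) :
    ∃ r : ℕ, r % 2 = i % 2 ∧ ∀ t : ℝ, t ≤ i → (i ≠ 0 → (i : ℝ) - 1 ≤ t) →
      f t ≤ r ∧ (r ≠ 0 → (r : ℝ) - 1 ≤ f t) := by
  have hiff : ∀ t, Reg i t → (f t ∈ A b ↔ i % 2 = 1) := by
    intro t ht
    rw [← mem_reg (a := a) ht, h]; rfl
  set p : ℝ := (i : ℝ) - 1 / 2 with hp
  have hpR : Reg i p := ⟨by rw [hp]; linarith, fun _ => by rw [hp]; linarith⟩
  have hpb := hiff p hpR
  obtain ⟨r, hr, hr1, hr2⟩ : ∃ r : ℕ, r % 2 = i % 2 ∧ f p ≤ r ∧ (r ≠ 0 → (r : ℝ) - 1 ≤ f p) := by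
    rcases region_cases (f p) with ⟨j, hj⟩ | ⟨j, hj⟩
    · by_cases hji : j % 2 = i % 2
      · exact ⟨j, hji, hj.le, fun _ => by rw [hj]; linarith⟩
      · refine ⟨j + 1, by omega, by rw [hj]; push_cast; linarith, fun _ => by rw [hj]; push_cast; linarith⟩
    · rw [mem_reg hj] at hpb
      exact ⟨j, by omega, hj.1.le, fun h0 => (hj.2 h0).le⟩
  refine ⟨r, hr, ?_⟩
  intro t ht1 ht2
  -- points strictly between are in the region
  have hseg : ∀ s ∈ uIcc p t, s ≠ t → Reg i s := by
    intro s hs hst
    rw [mem_uIcc] at hs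
    constructor
    · rcases hs with hs | hs
      · exact lt_of_lt_of_le (lt_of_le_of_ne hs.2 hst) ht1
      · exact lt_of_le_of_lt hs.2 hpR.1
    · intro h0
      rcases hs with hs | hs
      · exact lt_of_lt_of_le (hpR.2 h0) hs.1
      · exact lt_of_le_of_lt (ht2 h0) (lt_of_le_of_ne hs.1 (Ne.symm hst))
  have hivt : ∀ v, v ∈ uIcc (f p) (f t) → v ≠ f t → ∃ s, Reg i s ∧ f s = v := by
    intro v hv hvt
    obtain ⟨s, hs, rfl⟩ := intermediate_value_uIcc hf.continuousOn hv
    exact ⟨s, hseg s hs (fun h => hvt (by rw [h])), rfl⟩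
  constructor
  · by_contra hc
    push Not at hc
    set v := ((r : ℝ) + min (f t) (r + 1)) / 2 with hv
    have h1 : (r : ℝ) < min (f t) (r + 1) := lt_min hc (by linarith)
    have h2 := min_le_left (f t) ((r : ℝ) + 1)
    have h3 := min_le_right (f t) ((r : ℝ) + 1)
    obtain ⟨s, hs, hsv⟩ := hivt v (by rw [mem_uIcc]; left; constructor <;> linarith) (by
      apply ne_of_lt; linarith)
    have h4 : Reg (r + 1) v := ⟨by push_cast; linarith, fun _ => by push_cast; linarith⟩
    have h5 := hiff s hs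
    rw [hsv, mem_reg h4] at h5
    omega
  · intro h0
    by_contra hc
    push Not at hc
    obtain ⟨r', rfl⟩ : ∃ r', r = r' + 1 := ⟨r - 1, by omega⟩
    push_cast at hc hr1 hr2
    have hr2 := hr2 h0
    set v := ((r' : ℝ) + max (f t) (r' - 1)) / 2 with hv
    have h1 : max (f t) ((r' : ℝ) - 1) < r' := max_lt (by linarith) (by linarith)
    have h2 := le_max_left (f t) ((r' : ℝ) - 1)
    have h3 := le_max_right (f t) ((r' : ℝ) - 1)
    obtain ⟨s, hs, hsv⟩ := hivt v (by rw [mem_uIcc]; right; constructor <;> linarith) (by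
      apply ne_of_gt; linarith)
    have h4 : Reg r' v := ⟨by linarith, fun _ => by linarith⟩
    have h5 := hiff s hs
    rw [hsv, mem_reg h4] at h5
    omega

lemma walk_of_reduction {f : ℝ → ℝ} (hf : Continuous f) {a b : ℕ → Prop}
    (h : A a = f ⁻¹' (A b)) : ∃ r : ℕ → ℕ, ∀ i, Step a b r i := by
  choose r hr1 hr2 using exists_reg hf h
  refine ⟨r, fun i => ?_⟩
  obtain ⟨h1, h2⟩ := hr2 i i le_rfl (fun _ => by linarith)
  obtain ⟨h3, h4⟩ := hr2 (i + 1) i (by push_cast; linarith) (fun _ => by push_cast; linarith)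
  have p1 := hr1 i
  have p2 := hr1 (i + 1)
  have hai : a i ↔ f i ∈ A b := by rw [← mem_nat (a := a) i, h]; rfl
  have q1 : r (i + 1) ≤ r i + 1 := by
    by_cases h0 : r (i + 1) = 0
    · omega
    · have := h4 h0
      have : (r (i + 1) : ℝ) ≤ r i + 1 := by linarith
      exact_mod_cast this
  have q2 : r i ≤ r (i + 1) + 1 := by
    by_cases h0 : r i = 0
    · omega
    · have := h2 h0
      have : (r i : ℝ) ≤ r (i + 1) + 1 := by linarith
      exact_mod_cast this
  have q3 : r i ≠ r (i + 1) := by omega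
  rcases Nat.lt_or_ge (r i) (r (i + 1)) with hlt | hge
  · left
    have e : r (i + 1) = r i + 1 := by omega
    refine ⟨e, ?_⟩
    have e1 : f i = r i := by
      apply le_antisymm h1
      have := h4 (by omega)
      rw [e] at this; push_cast at this; linarith
    rw [hai, e1, mem_nat]
  · right
    have e : r i = r (i + 1) + 1 := by omega
    refine ⟨e, ?_⟩
    have e1 : f i = r (i + 1) := by
      apply le_antisymm h3
      have := h2 (by omega)
      rw [e] at this; push_cast at this; linarith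
    rw [hai, e1, mem_nat]

/-! ### from walks to reductions -/

/-- finite stages of the reduction -/
noncomputable def F (r : ℕ → ℕ) (M : ℕ) (t : ℝ) : ℝ :=
  ((r 0 : ℝ) - 1 / 2) + ∑ i ∈ Finset.range M,
    ((r (i + 1) : ℝ) - r i) * Real.smoothTransition (t - i + 1 / 2)

/-- the reduction -/
noncomputable def fr (r : ℕ → ℕ) (t : ℝ) : ℝ := F r (⌊t⌋₊ + 2) t

lemma F_const (r : ℕ → ℕ) {m M : ℕ} {t : ℝ} (hmM : m ≤ M) (h : t + 1 / 2 ≤ m) :
    F r M t = F r m t := by
  unfold F
  congr 1
  symm
  apply Finset.sum_subset (Finset.range_subset_range.2 hmM)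
  intro i _ hi
  rw [Finset.mem_range, not_lt] at hi
  have : (m : ℝ) ≤ i := by exact_mod_cast hi
  rw [Real.smoothTransition.zero_of_nonpos (by linarith), mul_zero]

lemma fr_eq (r : ℕ → ℕ) {M : ℕ} {t : ℝ} (h : ⌊t⌋₊ + 2 ≤ M) : fr r t = F r M t := by
  unfold fr
  refine (F_const r h ?_).symm
  push_cast
  linarith [Nat.lt_floor_add_one t]

lemma F_full (r : ℕ → ℕ) {m : ℕ} {t : ℝ} (h : (m : ℝ) ≤ t + 1 / 2) :
    F r m t = r m - 1 / 2 := by
  unfold F
  have : ∑ i ∈ Finset.range m, ((r (i + 1) : ℝ) - r i) * Real.smoothTransition (t - i + 1 / 2)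
      = ∑ i ∈ Finset.range m, ((r (i + 1) : ℝ) - r i) := by
    apply Finset.sum_congr rfl
    intro i hi
    rw [Finset.mem_range] at hi
    have : (i : ℝ) + 1 ≤ m := by exact_mod_cast hi
    rw [Real.smoothTransition.one_of_one_le (by linarith), mul_one]
  rw [this, Finset.sum_range_sub (fun i => (r i : ℝ))]
  ring

lemma fr_eval (r : ℕ → ℕ) {i : ℕ} {t : ℝ} (h1 : (i : ℝ) ≤ t + 1 / 2) (h2 : t + 1 / 2 ≤ i + 1) :
    fr r t = (r i - 1 / 2) + ((r (i + 1) : ℝ) - r i) * Real.smoothTransition (t - i + 1 / 2) := by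
  rw [fr_eq r (le_max_left (⌊t⌋₊ + 2) (i + 1)),
    F_const r (le_max_right (⌊t⌋₊ + 2) (i + 1)) (by push_cast; exact h2)]
  rw [← F_full r h1]
  unfold F
  rw [Finset.sum_range_succ]
  ring

lemma fr_neg (r : ℕ → ℕ) {t : ℝ} (h : t + 1 / 2 ≤ 0) : fr r t = r 0 - 1 / 2 := by
  unfold fr
  rw [F_const r (Nat.zero_le _) (by simpa using h)]
  simp [F]

open scoped ContDiff in
lemma fr_smooth (r : ℕ → ℕ) : ContDiff ℝ ∞ (fr r) := by
  rw [contDiff_iff_contDiffAt]
  intro t0
  have hF : ContDiff ℝ ∞ (F r (⌊t0⌋₊ + 3)) := by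
    unfold F
    refine contDiff_const.add (ContDiff.sum fun i _ => contDiff_const.mul ?_)
    exact Real.smoothTransition.contDiff.comp ((contDiff_id.sub contDiff_const).add contDiff_const)
  refine hF.contDiffAt.congr_of_eventuallyEq ?_
  filter_upwards [Iio_mem_nhds (show t0 < t0 + 1 by linarith)] with t ht
  apply fr_eq
  have h1 : ⌊t⌋₊ < ⌊t0⌋₊ + 2 := by
    rw [Nat.floor_lt' (by omega)]
    push_cast
    have := Nat.lt_floor_add_one t0
    simp only [mem_Iio] at ht
    linarith
  omega

lemma diff_le {r : ℕ → ℕ} (hr : ∀ i, |(r (i + 1) : ℝ) - r i| ≤ 1) {i j : ℕ} (hij : i ≤ j) :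
    |(r j : ℝ) - r i| ≤ j - i := by
  induction j, hij using Nat.le_induction with
  | base => simp
  | succ j hj ih =>
    have := hr j
    push_cast
    calc |(r (j + 1) : ℝ) - r i| = |((r (j + 1) : ℝ) - r j) + (r j - r i)| := by congr 1; ring
      _ ≤ |(r (j + 1) : ℝ) - r j| + |(r j : ℝ) - r i| := abs_add_le _ _
      _ ≤ j + 1 - i := by linarith

lemma fr_lip {r : ℕ → ℕ} (hr : ∀ i, |(r (i + 1) : ℝ) - r i| ≤ 1) : ∃ K, LipschitzWith K (fr r) := by
  obtain ⟨K, hK⟩ := (Real.smoothTransition.contDiff (n := 1)).contDiffOn.exists_lipschitzOnWith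
    (s := Icc (0 : ℝ) 1) (by norm_num) (convex_Icc 0 1) isCompact_Icc
  have hloc : ∀ (i : ℕ) (s t : ℝ), (i : ℝ) ≤ s + 1 / 2 → s ≤ t → t + 1 / 2 ≤ i + 1 →
      |fr r t - fr r s| ≤ K * (t - s) := by
    intro i s t h1 h2 h3
    rw [fr_eval r (by linarith) h3, fr_eval r h1 (by linarith)]
    have := hK.dist_le_mul (t - i + 1 / 2) ⟨by linarith, by linarith⟩ (s - i + 1 / 2)
      ⟨by linarith, by linarith⟩
    rw [Real.dist_eq, Real.dist_eq] at this
    have e : t - ↑i + 1 / 2 - (s - ↑i + 1 / 2) = t - s := by ring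
    rw [e, abs_of_nonneg (sub_nonneg.2 h2)] at this
    calc _ = |(r (i + 1) : ℝ) - r i| * |Real.smoothTransition (t - i + 1 / 2) -
          Real.smoothTransition (s - i + 1 / 2)| := by rw [← abs_mul]; congr 1; ring
      _ ≤ 1 * |Real.smoothTransition (t - i + 1 / 2) - Real.smoothTransition (s - i + 1 / 2)| :=
        mul_le_mul_of_nonneg_right (hr i) (abs_nonneg _)
      _ ≤ K * (t - s) := by rw [one_mul]; exact this
  set L : NNReal := max K 1 with hL
  have hKL : (K : ℝ) ≤ L := by exact_mod_cast le_max_left K 1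
  have h1L : (1 : ℝ) ≤ L := by exact_mod_cast le_max_right K 1
  have hmid : ∀ s t : ℝ, 0 ≤ s + 1 / 2 → s ≤ t → |fr r t - fr r s| ≤ L * (t - s) := by
    intro s t hs hst
    set i := ⌊s + 1 / 2⌋₊ with hi
    set j := ⌊t + 1 / 2⌋₊ with hj
    have i1 : (i : ℝ) ≤ s + 1 / 2 := Nat.floor_le hs
    have i2 : s + 1 / 2 < i + 1 := Nat.lt_floor_add_one _
    have j1 : (j : ℝ) ≤ t + 1 / 2 := Nat.floor_le (by linarith)
    have j2 : t + 1 / 2 < j + 1 := Nat.lt_floor_add_one _
    have hij : i ≤ j := Nat.floor_le_floor (by linarith)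
    rcases hij.eq_or_lt with h | h
    · have := hloc i s t i1 hst (by rw [h]; exact j2.le)
      refine this.trans (mul_le_mul_of_nonneg_right hKL (by linarith))
    · have hc : (i : ℝ) + 1 ≤ j := by exact_mod_cast h
      have p1 := hloc i s (i + 1 / 2) i1 (by linarith) (by linarith)
      have p2 := hloc j (j - 1 / 2) t (by linarith) (by linarith) j2.le
      have e1 : fr r (i + 1 / 2) = r (i + 1) - 1 / 2 := by
        rw [fr_eval r (i := i) (by linarith) (by linarith),
          Real.smoothTransition.one_of_one_le (by linarith)]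
        ring
      have e2 : fr r (j - 1 / 2) = r j - 1 / 2 := by
        rw [fr_eval r (i := j) (by linarith) (by linarith),
          Real.smoothTransition.zero_of_nonpos (by linarith)]
        ring
      have p3 := diff_le hr (show i + 1 ≤ j from h)
      push_cast at p3
      calc |fr r t - fr r s| = |(fr r t - fr r (j - 1 / 2)) + ((r j : ℝ) - r (i + 1)) +
            (fr r (i + 1 / 2) - fr r s)| := by congr 1; rw [e1, e2]; ring
        _ ≤ |fr r t - fr r (j - 1 / 2)| + |(r j : ℝ) - r (i + 1)| +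
            |fr r (i + 1 / 2) - fr r s| := abs_add_three _ _ _
        _ ≤ L * (t - s) := by nlinarith [abs_nonneg ((r j : ℝ) - r (i + 1))]
  have hall : ∀ s t : ℝ, s ≤ t → |fr r t - fr r s| ≤ L * (t - s) := by
    intro s t hst
    rcases le_or_gt 0 (s + 1 / 2) with h | h
    · exact hmid s t h hst
    · rcases le_or_gt 0 (t + 1 / 2) with h' | h'
      · have e : fr r s = fr r (-1 / 2) := by rw [fr_neg r h.le, fr_neg r (by norm_num)]
        rw [e]
        refine (hmid (-1 / 2) t (by norm_num) (by linarith)).trans ?_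
        exact mul_le_mul_of_nonneg_left (by linarith) L.2
      · rw [fr_neg r h.le, fr_neg r h'.le, sub_self, abs_zero]
        exact mul_nonneg L.2 (by linarith)
  refine ⟨L, LipschitzWith.of_dist_le_mul fun s t => ?_⟩
  rw [Real.dist_eq, Real.dist_eq]
  rcases le_total s t with h | h
  · rw [abs_sub_comm, abs_sub_comm s t, abs_of_nonneg (sub_nonneg.2 h)]
    exact hall s t h
  · rw [abs_of_nonneg (sub_nonneg.2 h)]
    exact hall t s h

lemma glue_lt {u : ℝ} (h : u < 1 / 2) : expNegInvGlue u < expNegInvGlue (1 - u) := by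
  rcases le_or_gt u 0 with h0 | h0
  · rw [expNegInvGlue.zero_of_nonpos h0]
    exact expNegInvGlue.pos_of_pos (by linarith)
  · unfold expNegInvGlue
    rw [if_neg (not_le.2 h0), if_neg (by linarith)]
    apply Real.exp_lt_exp.2
    apply neg_lt_neg
    exact inv_strictAnti₀ h0 (by linarith)

lemma st_half : Real.smoothTransition (1 / 2) = 1 / 2 := by
  unfold Real.smoothTransition
  have := expNegInvGlue.pos_of_pos (show (0 : ℝ) < 1 / 2 by norm_num)
  rw [show (1 : ℝ) - 1 / 2 = 1 / 2 by norm_num]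
  field_simp
  norm_num

lemma st_lt {u : ℝ} (h : u < 1 / 2) : Real.smoothTransition u < 1 / 2 := by
  unfold Real.smoothTransition
  rw [div_lt_iff₀ (Real.smoothTransition.pos_denom u)]
  linarith [glue_lt h]

lemma st_gt {u : ℝ} (h : 1 / 2 < u) : 1 / 2 < Real.smoothTransition u := by
  unfold Real.smoothTransition
  rw [lt_div_iff₀ (Real.smoothTransition.pos_denom u)]
  have := glue_lt (show 1 - u < 1 / 2 by linarith)
  rw [sub_sub_cancel] at this
  linarith

lemma reduction_of_walk {a b : ℕ → Prop} {r : ℕ → ℕ} (hr : ∀ i, Step a b r i) (h0 : r 0 % 2 = 0) :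
    (∀ i, |(r (i + 1) : ℝ) - r i| ≤ 1) ∧ A a = (fr r) ⁻¹' (A b) := by
  have habs : ∀ i, |(r (i + 1) : ℝ) - r i| = 1 := by
    intro i
    rcases hr i with ⟨h, _⟩ | ⟨h, _⟩
    · rw [h]; push_cast; rw [add_sub_cancel_left, abs_one]
    · rw [h]; push_cast; rw [abs_sub_comm, add_sub_cancel_left, abs_one]
  refine ⟨fun i => (habs i).le, ?_⟩
  have hpar : ∀ i, r i % 2 = i % 2 := by
    intro i
    induction i with
    | zero => simpa using h0
    | succ i ih => rcases hr i with ⟨h, _⟩ | ⟨h, _⟩ <;> omega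
  have hnear : ∀ (i : ℕ) (t : ℝ), Reg i t → |fr r t - (r i - 1 / 2)| < 1 / 2 := by
    intro i t ht
    rcases le_or_gt (i : ℝ) (t + 1 / 2) with h1 | h1
    · rw [fr_eval r h1 (by linarith [ht.1]), add_sub_cancel_left, abs_mul, habs i, one_mul,
        abs_of_nonneg (Real.smoothTransition.nonneg _)]
      apply st_lt
      linarith [ht.1]
    · rcases i with _ | i
      · rw [fr_neg r (by simpa using h1.le), sub_self, abs_zero]; norm_num
      · have h2 := ht.2 (by omega)
        push_cast at h1 h2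
        rw [fr_eval r (i := i) (by linarith) (by linarith)]
        have e : (r i : ℝ) - 1 / 2 + (r (i + 1) - r i) * Real.smoothTransition (t - i + 1 / 2) -
            (r (i + 1) - 1 / 2) =
            ((r (i + 1) : ℝ) - r i) * (Real.smoothTransition (t - i + 1 / 2) - 1) := by ring
        rw [e, abs_mul, habs i, one_mul, abs_sub_comm,
          abs_of_nonneg (sub_nonneg.2 (Real.smoothTransition.le_one _))]
        have := st_gt (u := t - i + 1 / 2) (by linarith)
        linarith
  ext t
  rw [mem_preimage]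
  rcases region_cases t with ⟨i, rfl⟩ | ⟨i, hi⟩
  · rw [mem_nat]
    have e : fr r i = (r i - 1 / 2) + ((r (i + 1) : ℝ) - r i) * (1 / 2) := by
      rw [fr_eval r (i := i) (by linarith) (by linarith)]
      rw [show (i : ℝ) - i + 1 / 2 = 1 / 2 by ring, st_half]
    rcases hr i with ⟨h, h'⟩ | ⟨h, h'⟩
    · have : fr r i = (r i : ℝ) := by rw [e, h]; push_cast; ring
      rw [this, mem_nat, h']
    · have : fr r i = (r (i + 1) : ℝ) := by rw [e, h]; push_cast; ring
      rw [this, mem_nat, h']
  · have h1 := hnear i t hi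
    rw [abs_lt] at h1
    have h2 : Reg (r i) (fr r t) := ⟨by linarith, fun _ => by linarith⟩
    rw [mem_reg hi, mem_reg h2, hpar i]

open scoped ContDiff in
/-- There is a map `x ↦ A x` from subsets of ω to sets of the form open ∩ closed of the real line
such that `x ⊆* y` iff `A x` is the preimage of `A y` under a Lipschitz function, iff it is the
preimage of `A y` under an infinitely differentiable function. -/
theorem result : ∃ A : Set ℕ → Set ℝ,
    (∀ x, ∃ U F : Set ℝ, IsOpen U ∧ IsClosed F ∧ A x = U ∩ F) ∧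
    (∀ x y : Set ℕ, (x \ y).Finite ↔
      ∃ f : ℝ → ℝ, (∃ K, LipschitzWith K f) ∧ A x = f ⁻¹' (A y)) ∧
    (∀ x y : Set ℕ, (x \ y).Finite ↔
      ∃ f : ℝ → ℝ, ContDiff ℝ ∞ f ∧ A x = f ⁻¹' (A y)) := by
  refine ⟨fun x => A (W x), fun x => A_D2 _, fun x y => ⟨fun h => ?_, ?_⟩,
    fun x y => ⟨fun h => ?_, ?_⟩⟩
  · obtain ⟨r, hr, h0⟩ := pos h
    obtain ⟨h1, h2⟩ := reduction_of_walk hr h0
    exact ⟨fr r, fr_lip h1, h2⟩
  · rintro ⟨f, ⟨K, hK⟩, hf⟩
    obtain ⟨r, hr⟩ := walk_of_reduction hK.continuous hf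
    exact neg hr
  · obtain ⟨r, hr, h0⟩ := pos h
    obtain ⟨h1, h2⟩ := reduction_of_walk hr h0
    exact ⟨fr r, fr_smooth r, h2⟩
  · rintro ⟨f, hs, hf⟩
    obtain ⟨r, hr⟩ := walk_of_reduction hs.continuous hf
    exact neg hr

end Pool.Agent.Results.MP_b9d480_lc.LipSmoothEmbedding
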